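import Pool.Agent.LE.Stmts2

/-!
# Row NUL: no decaying eigenfunction with value one at the origin and energy in a null set
-/

set_option autoImplicit false
set_option linter.unusedSectionVars false

open MeasureTheory ProbabilityTheory Function

open scoped ENNReal NNReal BigOperators

noncomputable section

namespace Pool.Agent.LE.H85

open Pool.Agent.Anderson Pool.Agent.Loc Pool.Agent.Helper54.Bal
  Pool.Agent.Helper96.EXP

/-- a measure with bounded density is absolutely continuous -/
theorem abs_cont {ν : Measure ℝ} [IsProbabilityMeasure ν] {ρ : ℝ} (h : BddDens ν ρ) :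
    ν ≪ volume := by
  obtain ⟨hρ, hI⟩ := h
  have hρ0 : ENNReal.ofReal ρ ≠ 0 := by
    rw [Ne, ENNReal.ofReal_eq_zero, not_le]; exact hρ
  have hle : (ENNReal.ofReal ρ)⁻¹ • ν ≤ (volume : Measure ℝ) := by
    rw [← hausdorffMeasure_real]
    refine Measure.le_hausdorffMeasure 1 _ 1 one_pos fun s hs => ?_
    rw [ENNReal.rpow_one, Measure.smul_apply, smul_eq_mul]
    rcases s.eq_empty_or_nonempty with rfl | hne
    · simp
    have hb : Bornology.IsBounded s := by
      rw [Metric.isBounded_iff_ediam_ne_top]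
      exact ne_top_of_le_ne_top ENNReal.one_ne_top hs
    have h1 : s ⊆ Set.Icc (sInf s) (sSup s) := fun x hx =>
      ⟨csInf_le hb.bddBelow hx, le_csSup hb.bddAbove hx⟩
    rw [Real.ediam_eq hb]
    calc (ENNReal.ofReal ρ)⁻¹ * ν s ≤ (ENNReal.ofReal ρ)⁻¹ * ENNReal.ofReal (ρ * (sSup s - sInf s)) :=
          mul_le_mul_right ((measure_mono h1).trans (hI _ _)) _
      _ = ENNReal.ofReal (sSup s - sInf s) := by
          rw [ENNReal.ofReal_mul hρ.le, ← mul_assoc, ENNReal.inv_mul_cancel hρ0 ENNReal.ofReal_ne_top,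
            one_mul]
  intro S hS
  have h1 := hle S
  rw [hS, Measure.smul_apply, smul_eq_mul] at h1
  have h2 := le_antisymm h1 zero_le
  rcases mul_eq_zero.1 h2 with h3 | h3
  · exact absurd h3 (ENNReal.inv_ne_zero.2 ENNReal.ofReal_ne_top)
  · exact h3

theorem sol_update {d : ℕ} {C m : ℝ} {V : Site d → ℝ} {r E : ℝ} {n : Site d → ℝ} :
    Sol C m (Function.update V 0 r) E n ↔ Sol C m V E n := by
  unfold Sol
  constructor
  · rintro ⟨h1, h2, h3⟩
    refine ⟨h1, h2, fun x hx => ?_⟩
    have := h3 x hx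
    rwa [Function.update_of_ne hx] at this
  · rintro ⟨h1, h2, h3⟩
    refine ⟨h1, h2, fun x hx => ?_⟩
    rw [Function.update_of_ne hx]
    exact h3 x hx

theorem nul (clo : CloStmt) : NulStmt := by
  intro d ν _ ρ hν C m K hm hK h
  obtain ⟨c1, c2⟩ := clo d C m
  set B : Set (Site d → ℝ) := {V | ∃ E ∈ K, ∃ n, Sol C m V E n ∧ lapR n 0 + V 0 = E} with hB
  have hBm : MeasurableSet B := (c2 K hK).measurableSet
  have hG : MeasurableSet {p : (Site d → ℝ) × ℝ | GoodE C m p.1 p.2} := c1.measurableSet
  -- Fubini for the good energies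
  have hF : ∀ᵐ V ∂(PP d ν), volume {E | E ∈ K ∧ GoodE C m V E} = 0 := by
    have h0 : ((volume.restrict K).prod (PP d ν))
        (Prod.swap ⁻¹' {p : (Site d → ℝ) × ℝ | GoodE C m p.1 p.2}) = 0 := by
      rw [Measure.measure_prod_null (measurable_swap hG)]
      exact ae_restrict_of_forall_mem hK.measurableSet fun E hE => h E hE
    have h1 : ((PP d ν).prod (volume.restrict K))
        {p : (Site d → ℝ) × ℝ | GoodE C m p.1 p.2} = 0 := by
      rw [← Measure.prod_swap, Measure.map_apply measurable_swap hG]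
      exact h0
    have h2 := Measure.measure_ae_null_of_prod_null h1
    filter_upwards [h2] with V hV
    have h3 : (volume.restrict K) {E | GoodE C m V E} = 0 := hV
    have h4 : MeasurableSet {E | GoodE C m V E} := measurable_prodMk_left hG
    rw [Measure.restrict_apply h4] at h3
    refine le_antisymm ((measure_mono ?_).trans_eq h3) zero_le
    rintro E ⟨hE, hE2⟩
    exact ⟨hE2, hE⟩
  have hmp := resamp_PP (d := d) ν
  have e1 : PP d ν B = (PP d ν).prod ν
      ((fun p : (Site d → ℝ) × ℝ => Function.update p.1 0 p.2) ⁻¹' B) := by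
    rw [hmp.measure_preimage hBm.nullMeasurableSet]
  rw [e1, Measure.measure_prod_null (measurable_upd hBm)]
  filter_upwards [hF] with V hV
  have h1 := null_values hm hV
  have h2 := abs_cont hν h1
  refine le_antisymm ((measure_mono ?_).trans_eq h2) zero_le
  intro r hr
  obtain ⟨E, hE, n, hn, hE2⟩ := hr
  refine ⟨E, hE, n, sol_update.1 hn, ?_⟩
  have hE3 : lapR n 0 + Function.update V (0 : Site d) r 0 = E := hE2
  rwa [Function.update_self] at hE3

end Pool.Agent.LE.H85
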