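import Pool.Agent.LE.StmtsR
import Pool.Agent.Helper85_LE.NulRow
import Pool.Agent.Helper77_LE.Clo

/-!
# Row GEN: exceptional pairs (potential, energy) do not occur at eigenvalues
-/

set_option autoImplicit false
set_option linter.unusedSectionVars false
set_option linter.style.haveILetI false

open MeasureTheory ProbabilityTheory Function TopologicalSpace

open scoped ENNReal NNReal BigOperators

noncomputable section

namespace Pool.Agent.LE.H85

open Pool.Agent.Anderson Pool.Agent.Loc Pool.Agent.Helper54.Bal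
  Pool.Agent.Helper96.EXP Pool.Agent.LE

/-- a measure with bounded density is at most a multiple of the Lebesgue measure -/
theorem le_vol {ν : Measure ℝ} [IsProbabilityMeasure ν] {ρ : ℝ} (h : BddDens ν ρ) (S : Set ℝ) :
    ν S ≤ ENNReal.ofReal ρ * volume S := by
  obtain ⟨hρ, hI⟩ := h
  have hρ0 : ENNReal.ofReal ρ ≠ 0 := by
    rw [Ne, ENNReal.ofReal_eq_zero, not_le]; exact hρ
  have hle : (ENNReal.ofReal ρ)⁻¹ • ν ≤ (volume : Measure ℝ) := by
    rw [← hausdorffMeasure_real]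
    refine Measure.le_hausdorffMeasure 1 _ 1 one_pos fun s hs => ?_
    rw [ENNReal.rpow_one, Measure.smul_apply, smul_eq_mul]
    rcases s.eq_empty_or_nonempty with rfl | hne
    · simp
    have hb : Bornology.IsBounded s := by
      rw [Metric.isBounded_iff_ediam_ne_top]
      exact ne_top_of_le_ne_top ENNReal.one_ne_top hs
    have h1 : s ⊆ Set.Icc (sInf s) (sSup s) := fun x hx =>
      ⟨csInf_le hb.bddBelow hx, le_csSup hb.bddAbove hx⟩
    rw [Real.ediam_eq hb]
    calc (ENNReal.ofReal ρ)⁻¹ * ν s ≤ (ENNReal.ofReal ρ)⁻¹ * ENNReal.ofReal (ρ * (sSup s - sInf s)) :=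
          mul_le_mul_right ((measure_mono h1).trans (hI _ _)) _
      _ = ENNReal.ofReal (sSup s - sInf s) := by
          rw [ENNReal.ofReal_mul hρ.le, ← mul_assoc, ENNReal.inv_mul_cancel hρ0 ENNReal.ofReal_ne_top,
            one_mul]
  have h1 := hle S
  rw [Measure.smul_apply, smul_eq_mul] at h1
  calc ν S = ENNReal.ofReal ρ * ((ENNReal.ofReal ρ)⁻¹ * ν S) := by
        rw [← mul_assoc, ENNReal.mul_inv_cancel hρ0 ENNReal.ofReal_ne_top, one_mul]
    _ ≤ _ := mul_le_mul_right h1 _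

theorem image_le {A : Set ℝ} (v : ℝ → ℝ) {K : ℝ≥0} (hv : LipschitzOnWith K v A) :
    volume (v '' A) ≤ K * volume A := by
  have h := hv.hausdorffMeasure_image_le (d := 1) zero_le_one
  rw [hausdorffMeasure_real, ENNReal.rpow_one] at h
  exact h

/-- the values of the potential at `0` for which there is a decaying eigenfunction with an energy
in a set `K` -/
theorem values_le {d : ℕ} {C m : ℝ} {V : Site d → ℝ} (hm : 0 < m) (K : Set ℝ) :
    volume {r : ℝ | ∃ E ∈ K, ∃ n, Sol C m V E n ∧ lapR n 0 + r = E} ≤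
      (C * (C * ∑' x : Site d, Real.exp (-m * sd 0 x))).toNNReal * volume K := by
  classical
  set v : ℝ → ℝ := fun E => if h : GoodE C m V E then E - lapR h.choose 0 else 0 with hv
  have hve : ∀ E n, Sol C m V E n → v E = E - lapR n 0 := by
    intro E n hn
    have h : GoodE C m V E := ⟨n, hn⟩
    have h1 := key hm h.choose_spec hn
    rw [sub_self, zero_mul, sub_eq_zero] at h1
    rw [hv]
    simp only
    rw [dif_pos h, h1]
  set Λ : ℝ := C * (C * ∑' x : Site d, Real.exp (-m * sd 0 x)) with hΛ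
  have hlip : LipschitzOnWith Λ.toNNReal v {E | E ∈ K ∧ GoodE C m V E} := by
    apply LipschitzOnWith.of_dist_le_mul
    rintro E ⟨_, n, hn⟩ E' ⟨_, n', hn'⟩
    rw [hve E n hn, hve E' n' hn', Real.dist_eq, Real.dist_eq]
    refine (lip hm hn hn').trans ?_
    exact mul_le_mul_of_nonneg_right (Real.le_coe_toNNReal _) (abs_nonneg _)
  refine (measure_mono ?_).trans ((image_le v hlip).trans
    (mul_le_mul_right (measure_mono fun E hE => hE.1) _))
  rintro r ⟨E, hE, n, hn, hr⟩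
  refine ⟨E, ⟨hE, n, hn⟩, ?_⟩
  rw [hve E n hn]
  linarith

/-- projection along a compact set -/
theorem closed_with {d : ℕ} (C m : ℝ) {K : Set ℝ} (hK : IsCompact K)
    {F : Set ((Site d → ℝ) × ℝ)} (hF : IsClosed F) :
    IsClosed {V : Site d → ℝ | ∃ E ∈ K, (V, E) ∈ F ∧ ∃ n, Sol C m V E n ∧ lapR n 0 + V 0 = E} := by
  have : CompactSpace (H77.K0 d C m) := isCompact_iff_compactSpace.1 (H77.isCompact_K0 d C m)
  have : CompactSpace K := isCompact_iff_compactSpace.1 hK
  have h1 : IsClosed {t : (Site d → ℝ) × (K × H77.K0 d C m) |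
      (((t.2.2 : Site d → ℝ) 0 = 1 ∧
      ∀ x, x ≠ 0 → lapR (t.2.2 : Site d → ℝ) x + t.1 x * (t.2.2 : Site d → ℝ) x =
        (t.2.1 : ℝ) * (t.2.2 : Site d → ℝ) x) ∧
      lapR (t.2.2 : Site d → ℝ) 0 + t.1 0 = (t.2.1 : ℝ)) ∧ (t.1, (t.2.1 : ℝ)) ∈ F} := by
    refine ((H77.closed_sol (V := fun t : (Site d → ℝ) × (K × H77.K0 d C m) => t.1)
      (n := fun t => (t.2.2 : Site d → ℝ)) (E := fun t => (t.2.1 : ℝ)) continuous_fst
      (continuous_subtype_val.comp (continuous_snd.comp continuous_snd))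
      (continuous_subtype_val.comp (continuous_fst.comp continuous_snd))).inter ?_).inter ?_
    · refine isClosed_eq (Continuous.add ?_ ?_)
        (continuous_subtype_val.comp (continuous_fst.comp continuous_snd))
      · exact (H77.continuous_lapR 0).comp
          (continuous_subtype_val.comp (continuous_snd.comp continuous_snd))
      · exact (continuous_apply 0).comp continuous_fst
    · exact hF.preimage (continuous_fst.prodMk
        (continuous_subtype_val.comp (continuous_fst.comp continuous_snd)))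
  have h2 := isClosedMap_fst_of_compactSpace (X := Site d → ℝ) (Y := K × H77.K0 d C m) _ h1
  have e : {V : Site d → ℝ | ∃ E ∈ K, (V, E) ∈ F ∧ ∃ n, Sol C m V E n ∧ lapR n 0 + V 0 = E} =
      Prod.fst '' {t : (Site d → ℝ) × (K × H77.K0 d C m) |
      (((t.2.2 : Site d → ℝ) 0 = 1 ∧
      ∀ x, x ≠ 0 → lapR (t.2.2 : Site d → ℝ) x + t.1 x * (t.2.2 : Site d → ℝ) x =
        (t.2.1 : ℝ) * (t.2.2 : Site d → ℝ) x) ∧
      lapR (t.2.2 : Site d → ℝ) 0 + t.1 0 = (t.2.1 : ℝ)) ∧ (t.1, (t.2.1 : ℝ)) ∈ F} := by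
    ext V
    constructor
    · rintro ⟨E, hE, hVE, n, ⟨hn0, hn1, hn2⟩, h3⟩
      exact ⟨(V, (⟨E, hE⟩, ⟨n, H77.mem_K0.2 hn1⟩)), ⟨⟨⟨hn0, hn2⟩, h3⟩, hVE⟩, rfl⟩
    · rintro ⟨⟨W, E, n⟩, ⟨⟨⟨hn0, hn2⟩, h3⟩, h4⟩, rfl⟩
      exact ⟨E, E.2, h4, n, ⟨hn0, H77.mem_K0.1 n.2, hn2⟩, h3⟩
  rw [e]
  exact h2

theorem meas_with {d : ℕ} (C m : ℝ) {K : Set ℝ} (hK : IsCompact K)
    {O : Set ((Site d → ℝ) × ℝ)} (hO : IsOpen O) :
    MeasurableSet {V : Site d → ℝ | ∃ E ∈ K, (V, E) ∈ O ∧
      ∃ n, Sol C m V E n ∧ lapR n 0 + V 0 = E} := by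
  letI A : PseudoMetricSpace ((Site d → ℝ) × ℝ) := pseudoMetrizableSpacePseudoMetric _
  obtain ⟨F, hF, -, hU, -⟩ := hO.exists_iUnion_isClosed
  have e : {V : Site d → ℝ | ∃ E ∈ K, (V, E) ∈ O ∧ ∃ n, Sol C m V E n ∧ lapR n 0 + V 0 = E} =
      ⋃ k, {V : Site d → ℝ | ∃ E ∈ K, (V, E) ∈ F k ∧
        ∃ n, Sol C m V E n ∧ lapR n 0 + V 0 = E} := by
    ext V
    simp only [Set.mem_ofPred_eq, Set.mem_iUnion]
    constructor
    · rintro ⟨E, hE, hVE, n, hn⟩
      rw [← hU, Set.mem_iUnion] at hVE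
      obtain ⟨k, hk⟩ := hVE
      exact ⟨k, E, hE, hk, n, hn⟩
    · rintro ⟨k, E, hE, hk, n, hn⟩
      refine ⟨E, hE, ?_, n, hn⟩
      rw [← hU]
      exact Set.mem_iUnion.2 ⟨k, hk⟩
  rw [e]
  exact MeasurableSet.iUnion fun k => (closed_with C m hK (hF k)).measurableSet

/-- the potential with value `0` at the origin -/
def zer {d : ℕ} (p : (Site d → ℝ) × ℝ) : (Site d → ℝ) × ℝ := (Function.update p.1 0 0, p.2)

theorem continuous_zer {d : ℕ} : Continuous (zer (d := d)) := by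
  unfold zer
  exact (continuous_fst.update 0 continuous_const).prodMk continuous_snd

theorem zer_update {d : ℕ} (V : Site d → ℝ) (r E : ℝ) :
    zer (Function.update V 0 r, E) = zer (V, E) := by
  unfold zer
  simp

theorem gen : GenStmt := by
  intro d ν _ ρ hν C m K B hm hK hB hB0 h
  obtain ⟨c1, -⟩ := H77.clo d C m
  have hG : MeasurableSet {p : (Site d → ℝ) × ℝ | GoodE C m p.1 p.2} := c1.measurableSet
  set μ : Measure ((Site d → ℝ) × ℝ) := (PP d ν).prod ((volume : Measure ℝ).restrict K) with hμ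
  haveI : IsFiniteMeasure ((volume : Measure ℝ).restrict K) := ⟨by
    rw [Measure.restrict_apply MeasurableSet.univ, Set.univ_inter]
    exact hK.measure_lt_top⟩
  set S : Set ((Site d → ℝ) × ℝ) := {p | GoodE C m p.1 p.2 ∧ p ∈ B ∧ p.2 ∈ K} with hS
  have hSm : MeasurableSet S :=
    hG.inter (hB.inter (measurable_snd hK.measurableSet))
  have hS0 : μ S = 0 := by
    have h0 : (((volume : Measure ℝ).restrict K).prod (PP d ν)) (Prod.swap ⁻¹' S) = 0 := by
      rw [Measure.measure_prod_null (measurable_swap hSm)]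
      filter_upwards [h] with E hE
      refine le_antisymm ((measure_mono ?_).trans_eq hE) zero_le
      rintro V ⟨h1, h2, -⟩
      exact ⟨h1, h2⟩
    rw [hμ, ← Measure.prod_swap, Measure.map_apply measurable_swap hSm]
    exact h0
  have hpre : zer ⁻¹' S = S := by
    ext ⟨V, E⟩
    constructor
    · rintro ⟨⟨n, hn⟩, h2, h3⟩
      exact ⟨⟨n, sol_update.1 hn⟩, (hB0 V 0 E).2 h2, h3⟩
    · rintro ⟨⟨n, hn⟩, h2, h3⟩
      exact ⟨⟨n, sol_update.2 hn⟩, (hB0 V 0 E).1 h2, h3⟩
  have hzm : Measurable (zer (d := d)) := continuous_zer.measurable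
  have hS1 : (μ.map zer) S = 0 := by
    rw [Measure.map_apply hzm hSm, hpre]
    exact hS0
  set Λ : ℝ≥0 := (C * (C * ∑' x : Site d, Real.exp (-m * sd 0 x))).toNNReal with hΛ
  -- the bound for every open set
  have key2 : ∀ O : Set ((Site d → ℝ) × ℝ), IsOpen O → S ⊆ O →
      PP d ν {V | ∃ E ∈ K, (V, E) ∈ B ∧ ∃ n, Sol C m V E n ∧ lapR n 0 + V 0 = E} ≤
        ENNReal.ofReal ρ * (Λ * (μ.map zer) O) := by
    intro O hO hSO
    set O' : Set ((Site d → ℝ) × ℝ) := zer ⁻¹' O with hO'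
    have hO'o : IsOpen O' := hO.preimage continuous_zer
    set Y : Set (Site d → ℝ) := {V | ∃ E ∈ K, (V, E) ∈ O' ∧
      ∃ n, Sol C m V E n ∧ lapR n 0 + V 0 = E} with hY
    have hYm : MeasurableSet Y := meas_with C m hK hO'o
    have hsub : {V | ∃ E ∈ K, (V, E) ∈ B ∧ ∃ n, Sol C m V E n ∧ lapR n 0 + V 0 = E} ⊆ Y := by
      rintro V ⟨E, hE, hVE, n, hn, h2⟩
      refine ⟨E, hE, ?_, n, hn, h2⟩
      have h3 : (V, E) ∈ S := ⟨⟨n, hn⟩, hVE, hE⟩
      rw [← hpre] at h3
      exact hSO h3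
    refine (measure_mono hsub).trans ?_
    have hmp := resamp_PP (d := d) ν
    have e1 : PP d ν Y = (PP d ν).prod ν
        ((fun p : (Site d → ℝ) × ℝ => Function.update p.1 0 p.2) ⁻¹' Y) := by
      rw [hmp.measure_preimage hYm.nullMeasurableSet]
    rw [e1, Measure.prod_apply (measurable_upd hYm)]
    have e2 : (μ.map zer) O = ∫⁻ V, ((volume : Measure ℝ).restrict K)
        (Prod.mk V ⁻¹' O') ∂(PP d ν) := by
      rw [Measure.map_apply hzm hO.measurableSet, hμ, Measure.prod_apply hO'o.measurableSet]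
    rw [e2, ← lintegral_const_mul', ← lintegral_const_mul']
    · refine lintegral_mono fun V => ?_
      have h4 : (Prod.mk V ⁻¹' ((fun p : (Site d → ℝ) × ℝ => Function.update p.1 0 p.2) ⁻¹' Y)) ⊆
          {r : ℝ | ∃ E ∈ {E | E ∈ K ∧ (V, E) ∈ O'}, ∃ n, Sol C m V E n ∧ lapR n 0 + r = E} := by
        rintro r ⟨E, hE, hVE, n, hn, h5⟩
        refine ⟨E, ⟨hE, ?_⟩, n, sol_update.1 hn, ?_⟩
        · have h6 : zer (Function.update V 0 r, E) ∈ O := hVE
          rw [zer_update] at h6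
          exact h6
        · have h6 : lapR n 0 + Function.update V (0 : Site d) r 0 = E := h5
          rwa [Function.update_self] at h6
      refine (measure_mono h4).trans ((le_vol hν _).trans ?_)
      refine mul_le_mul_right ((values_le hm _).trans (mul_le_mul_right ?_ _)) _
      have h7 : MeasurableSet (Prod.mk V ⁻¹' O') := measurable_prodMk_left hO'o.measurableSet
      rw [Measure.restrict_apply h7]
      exact measure_mono fun E hE => ⟨hE.2, hE.1⟩
    · exact ENNReal.ofReal_ne_top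
    · exact ENNReal.coe_ne_top
  -- conclusion
  refine le_antisymm (ENNReal.le_of_forall_pos_le_add fun ε hε _ => ?_) zero_le
  rw [zero_add]
  have hc : ENNReal.ofReal ρ * Λ ≠ ⊤ := ENNReal.mul_ne_top ENNReal.ofReal_ne_top ENNReal.coe_ne_top
  have hδ : (0 : ℝ≥0∞) < ε / (ENNReal.ofReal ρ * Λ + 1) :=
    ENNReal.div_pos (by exact_mod_cast hε.ne') (ENNReal.add_ne_top.2 ⟨hc, ENNReal.one_ne_top⟩)
  haveI : IsFiniteMeasure (μ.map zer) := by
    have : IsFiniteMeasure μ := by rw [hμ]; infer_instance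
    exact Measure.isFiniteMeasure_map μ zer
  obtain ⟨O, hSO, hO, hlt⟩ := S.exists_isOpen_lt_of_lt (μ := μ.map zer) _ (hS1.trans_lt hδ)
  refine (key2 O hO hSO).trans ?_
  rw [← mul_assoc]
  calc ENNReal.ofReal ρ * Λ * (μ.map zer) O
      ≤ (ENNReal.ofReal ρ * Λ + 1) * (ε / (ENNReal.ofReal ρ * Λ + 1)) :=
        mul_le_mul' le_self_add hlt.le
    _ ≤ ε := ENNReal.mul_div_le

end Pool.Agent.LE.H85
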