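import Pool.Agent.LE.StmtsC
import Pool.Agent.Helper42_LE.Msd
import Pool.Agent.Helper76_LEC.Upa

/-!
# LOX: locality of the Green function (one resolvent expansion)
-/

set_option autoImplicit false

open MeasureTheory ProbabilityTheory Function Filter

open scoped ENNReal BigOperators Topology

noncomputable section

namespace Pool.Agent.LE.H85

open Pool.Agent.Anderson Pool.Agent.Loc Pool.Agent.Mob Pool.Agent.Helper54.Bal
  Pool.Agent.Helper96.EXP

variable {d : ℕ}

/-- geometric resolvent identity, both sites in the small set -/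
theorem lox_geo {V : Site d → ℝ} {Λ A : Finset (Site d)} {E : ℝ} (hA : A ⊆ Λ)
    (h : (RM V Λ E).det ≠ 0) (hA' : (RM V A E).det ≠ 0) {x y : Site d} (hx : x ∈ A)
    (hy : y ∈ A) :
    gr V Λ E x y - gr V A E x y =
      ∑ u ∈ A, ∑ u' ∈ Λ \ A, gr V A E x u * hop u u' * gr V Λ E u' y := by
  have e1 : ∀ u ∈ A, ∑ z ∈ A, rm V E u z * gr V Λ E z y =
      (if u = y then 1 else 0) + ∑ u' ∈ Λ \ A, hop u u' * gr V Λ E u' y := by
    intro u hu
    have h1 := rm_mul_gr h (hA hu) (hA hy)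
    rw [← Finset.sum_sdiff hA] at h1
    have h2 : ∑ z ∈ Λ \ A, rm V E u z * gr V Λ E z y =
        - ∑ u' ∈ Λ \ A, hop u u' * gr V Λ E u' y := by
      rw [← Finset.sum_neg_distrib]
      apply Finset.sum_congr rfl
      intro z hz
      have huz : u ≠ z := by
        rintro rfl
        exact (Finset.mem_sdiff.1 hz).2 hu
      unfold rm
      rw [if_neg huz]
      ring
    rw [h2] at h1
    linarith
  have e2 : ∑ u ∈ A, gr V A E x u * ∑ z ∈ A, rm V E u z * gr V Λ E z y = gr V Λ E x y := by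
    simp_rw [Finset.mul_sum]
    rw [Finset.sum_comm]
    have : ∀ z ∈ A, ∑ u ∈ A, gr V A E x u * (rm V E u z * gr V Λ E z y) =
        (if x = z then 1 else 0) * gr V Λ E z y := by
      intro z hz
      rw [← gr_mul_rm hA' hx hz, Finset.sum_mul]
      apply Finset.sum_congr rfl
      intro u _
      ring
    rw [Finset.sum_congr rfl this]
    simp [hx]
  have e3 : ∑ u ∈ A, gr V A E x u * (if u = y then 1 else 0) = gr V A E x y := by
    simp [hy]
  have e4 : ∀ u ∈ A, gr V A E x u * ∑ z ∈ A, rm V E u z * gr V Λ E z y =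
      gr V A E x u * (if u = y then 1 else 0) +
        ∑ u' ∈ Λ \ A, gr V A E x u * hop u u' * gr V Λ E u' y := by
    intro u hu
    rw [e1 u hu, mul_add, Finset.mul_sum]
    congr 1
    apply Finset.sum_congr rfl
    intro z _
    ring
  rw [← e2, Finset.sum_congr rfl e4, Finset.sum_add_distrib, e3]
  ring

theorem lox_bound {V : Site d → ℝ} {Λ A : Finset (Site d)} {E α β : ℝ} (hA : A ⊆ Λ)
    (h : (RM V Λ E).det ≠ 0) (hA' : (RM V A E).det ≠ 0) {x y : Site d} (hx : x ∈ A)
    (hy : y ∈ A) (hα : 0 ≤ α) (hβ : 0 ≤ β)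
    (hb : ∀ b ∈ A, ∀ b' ∈ Λ \ A, hop b b' ≠ 0 → |gr V A E x b| ≤ α ∧ |gr V Λ E b' y| ≤ β) :
    |gr V Λ E x y - gr V A E x y| ≤ α * (2 * d * A.card) * β := by
  rw [lox_geo hA h hA' hx hy]
  refine (Finset.abs_sum_le_sum_abs _ _).trans ?_
  have h1 : ∀ b ∈ A, |∑ u' ∈ Λ \ A, gr V A E x b * hop b u' * gr V Λ E u' y| ≤
      α * (2 * d) * β := by
    intro b hbA
    refine (Finset.abs_sum_le_sum_abs _ _).trans ?_
    have h2 : ∀ u' ∈ Λ \ A, |gr V A E x b * hop b u' * gr V Λ E u' y| ≤ hop b u' * (α * β) := by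
      intro u' hu'
      by_cases hne : hop b u' = 0
      · rw [hne, mul_zero, zero_mul, zero_mul, abs_zero]
      · obtain ⟨h3, h4⟩ := hb b hbA u' hu' hne
        rw [abs_mul, abs_mul, abs_of_nonneg (hop_nonneg b u')]
        have := hop_nonneg b u'
        calc |gr V A E x b| * hop b u' * |gr V Λ E u' y| ≤ α * hop b u' * β := by gcongr
          _ = _ := by ring
    refine (Finset.sum_le_sum h2).trans ?_
    rw [← Finset.sum_mul]
    calc (∑ u' ∈ Λ \ A, hop b u') * (α * β) ≤ 2 * d * (α * β) := by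
          gcongr
          exact sum_hop_le b _
      _ = _ := by ring
  refine (Finset.sum_le_sum h1).trans (le_of_eq ?_)
  rw [Finset.sum_const, nsmul_eq_mul]
  ring

/-- LOX. -/
theorem lox : LoxStmt := by
  intro d η κ' κ₀ K _ hη hκ hκ₀ hK hηK hκK
  have hK' : (8 : ℝ) ≤ K := by exact_mod_cast hK
  have hK0 : (0 : ℝ) < K := by linarith
  obtain ⟨L₁, hL₁⟩ := H76C.poly_exp d (b := 1 / (K : ℝ)) (by positivity)
  refine ⟨L₁ + 1, ?_⟩
  intro V N L b x E hL hbox hdet hSG hx hfar
  have hL0 : 1 ≤ L := by omega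
  have hL' : (1 : ℝ) ≤ L := by exact_mod_cast hL0
  have hKL : L ≤ K * L := by nlinarith
  have hA : box b (K * L) ⊆ box 0 N :=
    fun z hz => hbox (mem_box.2 (by have := mem_box.1 hz; omega))
  have hbA : b ∈ box b (K * L) := mem_box.2 (by rw [sd_self]; omega)
  have hxA : x ∈ box b (K * L) := by
    rw [mem_box] at hx ⊢
    omega
  have key := lox_bound (α := Real.exp (-(κ' / 4) * ((K * L : ℕ) : ℝ)))
    (β := Real.exp (η * (K * L))) hA hdet hSG.1 hbA hxA (Real.exp_pos _).le (Real.exp_pos _).le (by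
      intro u hu u' hu' hne
      have h8 := sd_of_hop hne
      rw [mem_box] at hu
      rw [Finset.mem_sdiff, mem_box, mem_box] at hu'
      have h9 := sd_triangle b u u'
      exact ⟨hSG.2 u (by omega), hfar u' (by omega)⟩)
  have hcard : ((box b (K * L)).card : ℝ) ≤ (3 * ((K * L : ℕ) : ℝ)) ^ d := by
    rw [card_box]
    push_cast
    gcongr
    have : (1 : ℝ) ≤ K * L := by nlinarith
    linarith
  have hpoly := hL₁ (K * L) (by omega)
  have hpe : Real.exp (1 / (K : ℝ) * ((K * L : ℕ) : ℝ)) = Real.exp L := by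
    congr 1
    push_cast
    field_simp
  rw [hpe] at hpoly
  have h2 : (2 : ℝ) ≤ Real.exp L := by
    have := Real.add_one_le_exp (L : ℝ)
    linarith
  have hexp : Real.exp (-(κ' / 4) * ((K * L : ℕ) : ℝ)) * Real.exp L * Real.exp (η * (K * L)) *
      Real.exp L ≤ Real.exp (-(κ₀ + 1) * L) := by
    rw [← Real.exp_add, ← Real.exp_add, ← Real.exp_add, Real.exp_le_exp]
    push_cast
    have h3 : η * K ≤ κ' * K / 192 := by
      have h4 : η * K * 24 ≤ κ' := by linarith
      have h5 : κ' * 8 ≤ κ' * K := by gcongr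
      linarith
    have h6 : -(κ' / 4) * K + 1 + η * K + 1 ≤ -(κ₀ + 1) := by linarith
    calc -(κ' / 4) * (K * L) + L + η * (K * L) + L
        = (-(κ' / 4) * K + 1 + η * K + 1) * L := by ring
      _ ≤ -(κ₀ + 1) * L := by gcongr
  calc |gr V (box 0 N) E b x - gr V (box b (K * L)) E b x|
      ≤ Real.exp (-(κ' / 4) * ((K * L : ℕ) : ℝ)) * (2 * d * (box b (K * L)).card) *
        Real.exp (η * (K * L)) := key
    _ ≤ Real.exp (-(κ' / 4) * ((K * L : ℕ) : ℝ)) * (2 * d * (3 * ((K * L : ℕ) : ℝ)) ^ d) *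
        Real.exp (η * (K * L)) := by gcongr
    _ ≤ Real.exp (-(κ' / 4) * ((K * L : ℕ) : ℝ)) * Real.exp L * Real.exp (η * (K * L)) := by
        gcongr
    _ ≤ Real.exp (-(κ₀ + 1) * L) / 2 := by
        have h7 : 0 ≤ Real.exp (-(κ' / 4) * ((K * L : ℕ) : ℝ)) * Real.exp L *
            Real.exp (η * (K * L)) := by positivity
        nlinarith

end Pool.Agent.LE.H85
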